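import Pool.Agent.TwoCvx.Final

/-!
# MP_e32f45_co: every planar point set decomposes into a sublinear number of 2-convex polygons

Q1 is answered in the affirmative: `D(n) = o(n)`. Definitions: `Pool/Agent/TwoCvx/Stmt.lean`.
-/

set_option autoImplicit false

namespace Pool.Agent.Results.MP_e32f45_co.SublinearTwoConvex

open Filter Pool.Agent.TwoCvx

/-- There is a function `f` with `f(n)/n → 0` such that every set `P` of `n ≥ 3` points in general position in the plane has a
decomposition into at most `f(n)` two-convex polygons. -/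
theorem result : ∃ f : ℕ → ℕ, Tendsto (fun n : ℕ => (f n : ℝ) / n) atTop (nhds 0) ∧
    ∀ P : Finset (ℝ × ℝ), GenPos (P : Set (ℝ × ℝ)) → 3 ≤ P.card →
      ∃ F : Finset (Set (ℝ × ℝ)), IsDecomposition (P : Set (ℝ × ℝ)) F ∧ F.card ≤ f P.card :=
  main

end Pool.Agent.Results.MP_e32f45_co.SublinearTwoConvex
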